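import Pool.Agent.Q151.MM.Star

/-!
# MP_de432b_gt: the punctured space of mm-spaces is contractible
-/

set_option autoImplicit false

namespace Pool.Agent.Results.MP_de432b_gt.PuncturedContractible

open Pool.Agent.Q151.MM

/-- `𝒳_*` is contractible, in the box topology and in the concentration topology. -/
theorem result : ContractibleSpace (XStar dbox) ∧ ContractibleSpace (XStar dconc) :=
  ⟨gauge_box.star_contractible BR.scale2, gauge_conc.star_contractible CR.scale2⟩

end Pool.Agent.Results.MP_de432b_gt.PuncturedContractible
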